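import Pool.Agent.TH861.FT.Main

/-!
# Separation of integral homology spheres by LMO is interpolation by additive invariants

By Kneser and Milnor the integral homology 3-spheres form, under connected sum, the free commutative
monoid `P →₀ ℕ` on the set `P` of (homeomorphism classes of) prime ones.  The logarithm of the LMO
invariant is an additive map to a rational vector space `V` (the completed space of connected
diagrams); it is given by its values `z p` on the primes.  The additive rational finite type
invariants of degree at most `d` form a rational vector space `F d` of functions on `P` (the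
coefficients of the primitive part of the universal invariant up to degree `d`, Le), and two
homology spheres have the same LMO invariant if and only if all these invariants agree on them.
-/

set_option autoImplicit false

open Finset

namespace Pool.Agent.Results.MP_27a3bb_gt.InterpolationCriterion

/-- The value on the connected sum `x` (in which the prime `p` occurs `x p` times) of the additive
invariant with the values `w p` on the primes. -/
def total {P A : Type*} [AddCommGroup A] (w : P → A) (x : P →₀ ℕ) : A := x.sum fun p n => n • w p

/-- The additive invariants of the free commutative monoid on `P` considered here: `z` is the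
logarithm of the LMO invariant, `F d` the space of additive finite type invariants of degree at most
`d`, and `c` is a measure of complexity which is subadditive for connected sums. -/
structure LMOTheory (P V : Type*) [AddCommGroup V] [Module ℚ V] where
  /-- the logarithm of the LMO invariant of a prime homology sphere -/
  z : P → V
  /-- the additive finite type invariants of degree at most `d` -/
  F : ℕ → Submodule ℚ (P → ℚ)
  mono : Monotone F
  /-- LMO is universal -/
  universal : ∀ x y : P →₀ ℕ,
    total z x = total z y ↔ ∀ d, ∀ v ∈ F d, total v x = total v y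
  /-- a complexity, for example the least number of tetrahedra of a triangulation -/
  c : (P →₀ ℕ) → ℝ
  c_nonneg : ∀ x, 0 ≤ c x
  c_add : ∀ x y, c (x + y) ≤ c x + c y

variable {P V : Type*} [AddCommGroup V] [Module ℚ V]

/-- All members of the finite set `X` have the same LMO invariant. -/
def SameLMO (T : LMOTheory P V) (X : Finset (P →₀ ℕ)) : Prop :=
  ∀ x ∈ X, ∀ y ∈ X, total T.z x = total T.z y

/-- The following are equivalent: (1) the LMO invariant distinguishes integral homology spheres;
(2) the logarithms of the LMO invariants of the prime homology spheres are linearly independent over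
the rationals; (3) for every finite set `S` of primes there is a degree `d` such that additive finite
type invariants of degree at most `d` take arbitrary rational values on `S`; (4) the number of
homology spheres with the same LMO invariant is bounded; (5) the number of homology spheres of
complexity at most `n` with the same LMO invariant is `o(n)`, uniformly. -/
theorem result (T : LMOTheory P V) :
    [(∀ x y : P →₀ ℕ, total T.z x = total T.z y → x = y),
      LinearIndependent ℚ T.z,
      (∀ S : Finset P, ∃ d, ∀ r : P → ℚ, ∃ v ∈ T.F d, ∀ p ∈ S, v p = r p),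
      (∃ B : ℕ, ∀ X : Finset (P →₀ ℕ), SameLMO T X → X.card ≤ B),
      (∀ ε : ℝ, 0 < ε → ∃ N : ℝ, ∀ n : ℝ, N ≤ n → ∀ X : Finset (P →₀ ℕ), SameLMO T X →
        (∀ x ∈ X, T.c x ≤ n) → (X.card : ℝ) ≤ ε * n)].TFAE := by
  have hone : (∀ x y : P →₀ ℕ, total T.z x = total T.z y → x = y) →
      ∀ X : Finset (P →₀ ℕ), SameLMO T X → X.card ≤ 1 := fun h X hX =>
    Finset.card_le_one.mpr fun a ha b hb => h a b (hX a ha b hb)
  tfae_have 1 → 2 := fun h => TH861.FT.indep_of_eq T.z h
  tfae_have 2 → 1 := fun h x y hxy => TH861.FT.eq_of_indep T.z h x y hxy
  tfae_have 1 → 3 := fun h S => TH861.FT.interp T.F T.mono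
    (fun x y hxy => h x y ((T.universal x y).mpr hxy)) S
  tfae_have 3 → 1 := fun h x y hxy =>
    TH861.FT.eq_of_interp T.F h x y ((T.universal x y).mp hxy)
  tfae_have 1 → 4 := fun h => ⟨1, hone h⟩
  tfae_have 4 → 1 := by
    rintro ⟨B, hB⟩ x y hxy
    by_contra hne
    obtain ⟨K, _, hK⟩ := TH861.FT.big_fibre T.z T.c T.c_nonneg T.c_add x y hne hxy
    obtain ⟨X, hX1, hX2, -⟩ := hK (B + 1) (by omega)
    have := hB X hX2
    omega
  tfae_have 1 → 5 := by
    intro h ε hε
    refine ⟨1 / ε, fun n hn X hX _ => ?_⟩
    have h1 : (X.card : ℝ) ≤ 1 := by exact_mod_cast hone h X hX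
    have h2 : 1 ≤ ε * n := by
      have h3 := mul_le_mul_of_nonneg_left hn hε.le
      rwa [mul_one_div_cancel hε.ne'] at h3
    linarith
  tfae_have 5 → 1 := by
    intro h x y hxy
    by_contra hne
    obtain ⟨K, hK0, hK⟩ := TH861.FT.big_fibre T.z T.c T.c_nonneg T.c_add x y hne hxy
    obtain ⟨N, hN⟩ := h (1 / (K + 1)) (by positivity)
    obtain ⟨m, hm⟩ := exists_nat_ge N
    set n : ℕ := m + 1 with hn
    obtain ⟨X, hX1, hX2, hX3⟩ := hK n (by omega)
    have hnN : N ≤ (n : ℝ) * (K + 1) := by
      have h1 : (m : ℝ) ≤ n := by exact_mod_cast (by omega : m ≤ n)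
      have h2 : (0 : ℝ) ≤ (n : ℝ) * K := by positivity
      nlinarith
    have h4 := hN ((n : ℝ) * (K + 1)) hnN X hX2 fun u hu => by
      have h5 := hX3 u hu
      have h6 : (0 : ℝ) ≤ (n : ℝ) := Nat.cast_nonneg _
      nlinarith
    rw [hX1] at h4
    have h7 : 1 / (K + 1) * ((n : ℝ) * (K + 1)) = n := by
      have : K + 1 ≠ 0 := by positivity
      field_simp
    rw [h7] at h4
    push_cast at h4
    linarith
  tfae_finish

end Pool.Agent.Results.MP_27a3bb_gt.InterpolationCriterion
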